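import Mathlib
import Pool.Agent.Lib.MP_d87a8f_pr.C.Cor
import Pool.Agent.Lib.MP_d87a8f_pr.C.Dih

/-!
The sequences of finite groups for which the conjectured time is the cutoff time for every
admissible number of generators.
-/

namespace Pool.Agent.Results.MP_d87a8f_pr.ChordCriterion

open Filter Topology Pool.Agent.Lib.MP_d87a8f_pr

/-- For finite groups with `|G| → ∞`: the walk has cutoff with high probability at the conjectured
time for every `k` with `k / log |G| → ∞` and `log k / log |G| → 0` exactly when the
Abelianisations of all subgroups satisfy the chord bound up to a factor `1 + o(1)`. -/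
theorem result (G : ℕ → Type) [∀ n, Group (G n)] [∀ n, Fintype (G n)] [∀ n, DecidableEq (G n)]
    (hG : Tendsto (fun n => Fintype.card (G n)) atTop atTop) :
    (∀ k : ℕ → ℕ,
      Tendsto (fun n => (k n : ℝ) / Real.log (Fintype.card (G n))) atTop atTop →
      Tendsto (fun n => Real.log (k n) / Real.log (Fintype.card (G n))) atTop (𝓝 0) →
      CutoffAt G k (fun n => tStar (G n) (k n))) ↔
    ∀ ε : ℝ, 0 < ε → ∀ᶠ n in atTop, ∀ H : Subgroup (G n),
      Real.log (Nat.card (Abelianization H)) ≤ (1 + ε) * chord (G n) H.index :=
  C.classification G hG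

/-- A consequence of `result`: the conjectured time is correct for all finite simple groups. -/
theorem simple_groups (G : ℕ → Type) [∀ n, Group (G n)] [∀ n, Fintype (G n)]
    [∀ n, DecidableEq (G n)] [∀ n, IsSimpleGroup (G n)]
    (hG : Tendsto (fun n => Fintype.card (G n)) atTop atTop) (k : ℕ → ℕ)
    (h1 : Tendsto (fun n => (k n : ℝ) / Real.log (Fintype.card (G n))) atTop atTop)
    (h2 : Tendsto (fun n => Real.log (k n) / Real.log (Fintype.card (G n))) atTop (𝓝 0)) :
    CutoffAt G k (fun n => tStar (G n) (k n)) :=
  (result G hG).2 (C.chord_of_simple G hG) k h1 h2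

/-- A consequence of `result`: the same if all normal subgroups are perfect. -/
theorem perfect_normal (G : ℕ → Type) [∀ n, Group (G n)] [∀ n, Fintype (G n)]
    [∀ n, DecidableEq (G n)] (hp : ∀ n (N : Subgroup (G n)), N.Normal → commutator N = ⊤)
    (hG : Tendsto (fun n => Fintype.card (G n)) atTop atTop) (k : ℕ → ℕ)
    (h1 : Tendsto (fun n => (k n : ℝ) / Real.log (Fintype.card (G n))) atTop atTop)
    (h2 : Tendsto (fun n => Real.log (k n) / Real.log (Fintype.card (G n))) atTop (𝓝 0)) :
    CutoffAt G k (fun n => tStar (G n) (k n)) :=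
  (result G hG).2 (C.chord_of_perfect G hp hG) k h1 h2

/-- A consequence of `result`, not claimed as new: it fails for the dihedral groups. -/
theorem dihedral_fails : ¬ ∀ k : ℕ → ℕ,
    Tendsto (fun n => (k n : ℝ) / Real.log (Fintype.card (DihedralGroup (n + 1)))) atTop atTop →
    Tendsto (fun n => Real.log (k n) / Real.log (Fintype.card (DihedralGroup (n + 1)))) atTop
      (𝓝 0) →
    CutoffAt (fun n => DihedralGroup (n + 1)) k (fun n => tStar (DihedralGroup (n + 1)) (k n)) :=
  fun h => C.dih_not_chord ((result _ C.dih_card).1 h 1 one_pos)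

end Pool.Agent.Results.MP_d87a8f_pr.ChordCriterion
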