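import Mathlib
import Pool.Agent.Lib.MP_d87a8f_pr.Q.Full
import Pool.Agent.Lib.MP_d87a8f_pr.J.Bound

/-!
The cutoff time of random directed Cayley graphs of arbitrary finite groups, in terms of the
degrees of the irreducible representations.
-/

namespace Pool.Agent.Results.MP_d87a8f_pr.DegreeFormula

open Filter Topology Pool.Agent.Lib.MP_d87a8f_pr

/-- For every sequence of finite groups with `k / log |G| → ∞` and `log k / log |G| → 0`, the walk
has cutoff with high probability at `τ` exactly when `τ` is asymptotically equivalent to the least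
`l` with `|G| ≤ k ^ l` and `lowDim G d * l ^ l ≤ (k * d) ^ l` for all `d ≥ 1`. -/
theorem result (G : ℕ → Type) [∀ n, Group (G n)] [∀ n, Fintype (G n)] [∀ n, DecidableEq (G n)]
    (k : ℕ → ℕ)
    (h1 : Tendsto (fun n => (k n : ℝ) / Real.log (Fintype.card (G n))) atTop atTop)
    (h2 : Tendsto (fun n => Real.log (k n) / Real.log (Fintype.card (G n))) atTop (𝓝 0))
    (τ : ℕ → ℝ) (hτ : ∀ n, 0 ≤ τ n) :
    CutoffAt G k τ ↔
      Asymptotics.IsEquivalent atTop τ (fun n => (degTime 1 (G n) (k n) : ℝ)) := by
  have h := (U.universal_cutoff G k h1 h2 _ (fun n => Nat.cast_nonneg _)).1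
    (Q.full_cutoff G k J.group_bound h1 h2)
  rw [U.universal_cutoff G k h1 h2 τ hτ]
  exact ⟨fun a => a.trans h.symm, fun a => a.trans h⟩

end Pool.Agent.Results.MP_d87a8f_pr.DegreeFormula
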