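import Mathlib
import Pool.Agent.Lib.MP_d87a8f_pr.P.He
import Pool.Agent.Lib.MP_d87a8f_pr.P.Neg
import Pool.Agent.Lib.MP_d87a8f_pr.K.StepE

/-!
The cutoff time of random directed Cayley graphs of arbitrary finite groups.
-/

namespace Pool.Agent.Results.MP_d87a8f_pr.SubgroupTime

open Filter Topology Pool.Agent.Lib.MP_d87a8f_pr

/-- For every sequence of finite groups with `k / log |G| → ∞` and `log k / log |G| → 0`, the walk
has cutoff with high probability at `τ` exactly when `τ` is asymptotically equivalent to the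
maximum of `log |G| / log k` and of the entropic times of `(k * [G : H], |H^ab|)`, `H ≤ G`. -/
theorem result (G : ℕ → Type) [∀ n, Group (G n)] [∀ n, Fintype (G n)] [∀ n, DecidableEq (G n)]
    (k : ℕ → ℕ)
    (h1 : Tendsto (fun n => (k n : ℝ) / Real.log (Fintype.card (G n))) atTop atTop)
    (h2 : Tendsto (fun n => Real.log (k n) / Real.log (Fintype.card (G n))) atTop (𝓝 0))
    (τ : ℕ → ℝ) (hτ : ∀ n, 0 ≤ τ n) :
    CutoffAt G k τ ↔ Asymptotics.IsEquivalent atTop τ (fun n => starTime (G n) (k n)) :=
  P.cutoff_of_stepE G k (c := 100) (r := 3)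
    (fun _ _ _ hb _ hD _ H _ _ d s => K.stepE hb hD H d s) h1 h2 τ hτ

/-- A consequence of `result`, not claimed as new: along a sequence of dihedral groups in the
regime there is no cutoff at the maximum of the entropic time of `(k, |G^ab|)` and
`log |G| / log k`. -/
theorem negated_form : ∃ (G : ℕ → Type) (_ : ∀ n, Group (G n)) (_ : ∀ n, Fintype (G n))
    (_ : ∀ n, DecidableEq (G n)) (k : ℕ → ℕ),
    Tendsto (fun n => (k n : ℝ) / Real.log (Fintype.card (G n))) atTop atTop ∧
    Tendsto (fun n => Real.log (k n) / Real.log (Fintype.card (G n))) atTop (𝓝 0) ∧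
    ¬ CutoffAt G k (fun n => max (entTime (k n) (Nat.card (Abelianization (G n))))
      (Real.log (Fintype.card (G n)) / Real.log (k n))) :=
  ⟨fun m => DihedralGroup (2 ^ (2 ^ (m + 3) - 1) - 1 + 1), inferInstance, inferInstance,
    inferInstance, fun m => (m + 3) * 2 ^ (m + 3), P.dih_h1, P.dih_h2, fun h =>
    P.dih_not_equiv ((result _ _ P.dih_h1 P.dih_h2 _ fun _ => le_max_of_le_right
      (div_nonneg (Real.log_natCast_nonneg _) (Real.log_natCast_nonneg _))).1 h)⟩

end Pool.Agent.Results.MP_d87a8f_pr.SubgroupTime
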