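import Mathlib
import Pool.Agent.Lib.MP_d87a8f_pr.H.Main

/-!
The conjectured time is the cutoff time for all groups of unitriangular matrices over `ZMod p`.
-/

namespace Pool.Agent.Results.MP_d87a8f_pr.Unitriangular

open Filter Topology Pool.Agent.Lib.MP_d87a8f_pr Pool.Agent.Lib.MP_d87a8f_pr.H

/-- Let `G n` be the group of `d n × d n` upper unitriangular matrices over `ZMod (p n)`, `p n`
prime, with `k / log |G| → ∞` and `log k / log |G| → 0`. Then the entropic time `t₀` of the
abelianisation exists for large `n`, and there is cutoff with high probability at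
`max t₀ (log |G| / log k)`. -/
theorem result (d p : ℕ → ℕ) [∀ n, Fact (p n).Prime] [∀ n, Fintype (UT (d n) (p n))]
    [∀ n, DecidableEq (UT (d n) (p n))] (k : ℕ → ℕ)
    (h1 : Tendsto (fun n => (k n : ℝ) / Real.log (Fintype.card (UT (d n) (p n)))) atTop atTop)
    (h2 : Tendsto (fun n => Real.log (k n) / Real.log (Fintype.card (UT (d n) (p n)))) atTop
      (𝓝 0)) :
    (∀ᶠ n in atTop, ∃ t : ℝ, 0 ≤ t ∧ (k n : ℝ) * poissonEntropy (t / k n) =
      Real.log (Nat.card (Abelianization (UT (d n) (p n))))) ∧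
    ∀ t₀ : ℕ → ℝ, (∀ᶠ n in atTop, 0 ≤ t₀ n ∧ (k n : ℝ) * poissonEntropy (t₀ n / k n) =
        Real.log (Nat.card (Abelianization (UT (d n) (p n))))) →
      CutoffAt (fun n => UT (d n) (p n)) k (fun n => max (t₀ n)
        (Real.log (Fintype.card (UT (d n) (p n))) / Real.log (k n))) :=
  heis_cutoff d p k h1 h2

end Pool.Agent.Results.MP_d87a8f_pr.Unitriangular
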